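import Pool.Agent.E8helper49.PC.Stm

/-!
# Project PC, piece STEPC: the primes above `q` whose norm is `2` modulo `3` in Galois extensions of
odd degree
-/

set_option autoImplicit false

namespace Pool.Agent.E8helper10.PC

open NumberField Ideal Pool.Agent.E8helper49.PC

section

variable (K L : Type) [Field K] [NumberField K] [Field L] [NumberField L] [Algebra K L]
  [IsGalois K L]

theorem odd_rel (hodd : Odd (Module.finrank K L)) (P : Ideal (𝓞 K)) [P.IsPrime] :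
    Odd (primesOver P (𝓞 L)).ncard ∧
    ∀ Q ∈ primesOver P (𝓞 L), Odd (Q.inertiaDeg (𝓞 K)) ∧ Odd (Q.ramificationIdx (𝓞 K)) := by
  have h := ncard_primesOver_mul_ramificationIdxIn_mul_inertiaDegIn P (𝓞 L) Gal(L/K)
  rw [IsGaloisGroup.card_eq_finrank Gal(L/K) K L] at h
  rw [← h] at hodd
  obtain ⟨h1, h2⟩ := Nat.odd_mul.1 hodd
  obtain ⟨h3, h4⟩ := Nat.odd_mul.1 h2
  refine ⟨h1, fun Q hQ => ?_⟩
  have : Q.IsPrime := hQ.1
  have : Q.LiesOver P := hQ.2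
  rw [ramificationIdxIn_eq_ramificationIdx P Q Gal(L/K)] at h3
  rw [inertiaDegIn_eq_inertiaDeg P Q Gal(L/K)] at h4
  exact ⟨h4, h3⟩

theorem norm_iff (hodd : Odd (Module.finrank K L)) (P : Ideal (𝓞 K)) [P.IsPrime]
    (Q : Ideal (𝓞 L)) (hQ : Q ∈ primesOver P (𝓞 L)) :
    Nat.card (𝓞 L ⧸ Q) % 3 = 2 ↔ Nat.card (𝓞 K ⧸ P) % 3 = 2 := by
  have hf := ((odd_rel K L hodd P).2 Q hQ).1
  have : Q.IsPrime := hQ.1
  have : Q.LiesOver P := hQ.2
  have h := absNorm_pow_inertiaDeg P Q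
  rw [absNorm_apply, absNorm_apply, Submodule.cardQuot_apply, Submodule.cardQuot_apply] at h
  rw [← h]
  obtain ⟨k, hk⟩ := hf
  rw [hk, Nat.pow_mod]
  have h3 : Nat.card (𝓞 K ⧸ P) % 3 = 0 ∨ Nat.card (𝓞 K ⧸ P) % 3 = 1 ∨
      Nat.card (𝓞 K ⧸ P) % 3 = 2 := by omega
  have e4 : (2 : ℕ) ^ (2 * k + 1) % 3 = 2 := by
    rw [pow_succ, pow_mul, Nat.mul_mod, Nat.pow_mod]
    norm_num
  rcases h3 with h3 | h3 | h3 <;> rw [h3]
  · rw [zero_pow (by omega)]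
    norm_num
  · rw [one_pow]
    norm_num
  · rw [e4]

theorem finA (M : Type) [Field M] [NumberField M] (q : ℕ) (hq : q.Prime) :
    Finite {P : Ideal (𝓞 M) // P.IsPrime ∧ (q : 𝓞 M) ∈ P ∧ Nat.card (𝓞 M ⧸ P) % 3 = 2} := by
  have hqz : Prime (q : ℤ) := Nat.prime_iff_prime_int.1 hq
  have hpr : (span {(q : ℤ)}).IsPrime := (span_singleton_prime hqz.ne_zero).2 hqz
  have hmax : (span {(q : ℤ)}).IsMaximal := IsPrime.isMaximal hpr (by
    rw [Ne, span_singleton_eq_bot]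
    exact hqz.ne_zero)
  have hfin : (primesOver (span {(q : ℤ)}) (𝓞 M)).Finite := Algebra.QuasiFinite.finite_primesOver _
  have hf : Finite ↥(primesOver (span {(q : ℤ)}) (𝓞 M)) := hfin
  refine Finite.of_injective (β := ↥(primesOver (span {(q : ℤ)}) (𝓞 M)))
    (fun P => ⟨P.1, P.2.1, ?_⟩) fun a b hab => ?_
  · refine ⟨?_⟩
    have hP := P.2.1
    refine hmax.eq_of_le (IsPrime.under ℤ P.1).ne_top ?_
    rw [span_singleton_le_iff_mem, under_def, mem_comap]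
    have := P.2.2.1
    simpa using this
  · have := congrArg Subtype.val hab
    exact Subtype.ext this

/-- **STEPC.** -/
theorem t_STEPC : S_STEPC := by
  intro K L _ _ _ _ _ _ hodd q hq _
  unfold nC
  have fA := finA K q hq
  have fB := finA L q hq
  have key : ∀ b : {Q : Ideal (𝓞 L) // Q.IsPrime ∧ (q : 𝓞 L) ∈ Q ∧ Nat.card (𝓞 L ⧸ Q) % 3 = 2},
      (b.1.under (𝓞 K)).IsPrime ∧ (q : 𝓞 K) ∈ b.1.under (𝓞 K) ∧
        Nat.card (𝓞 K ⧸ b.1.under (𝓞 K)) % 3 = 2 := by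
    intro b
    have hb := b.2.1
    have hP : (b.1.under (𝓞 K)).IsPrime := IsPrime.under (𝓞 K) b.1
    refine ⟨hP, ?_, ?_⟩
    · rw [under_def, mem_comap]
      simpa using b.2.2.1
    · exact (norm_iff K L hodd (b.1.under (𝓞 K)) b.1 ⟨hb, ⟨rfl⟩⟩).1 b.2.2.2
  let f : {Q : Ideal (𝓞 L) // Q.IsPrime ∧ (q : 𝓞 L) ∈ Q ∧ Nat.card (𝓞 L ⧸ Q) % 3 = 2} →
      {P : Ideal (𝓞 K) // P.IsPrime ∧ (q : 𝓞 K) ∈ P ∧ Nat.card (𝓞 K ⧸ P) % 3 = 2} :=
    fun b => ⟨b.1.under (𝓞 K), key b⟩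
  have := Fintype.ofFinite
    {P : Ideal (𝓞 K) // P.IsPrime ∧ (q : 𝓞 K) ∈ P ∧ Nat.card (𝓞 K ⧸ P) % 3 = 2}
  rw [Nat.card_congr (Equiv.sigmaFiberEquiv f).symm, Nat.card_sigma, Nat.card_eq_fintype_card,
    ← Finset.card_univ, Finset.card_eq_sum_ones, ← Finset.sum_add_distrib]
  refine Finset.even_sum _ fun a _ => ?_
  have ha := a.2.1
  have e : Nat.card {b // f b = a} = (primesOver a.1 (𝓞 L)).ncard := by
    rw [← Nat.card_coe_set_eq]
    refine Nat.card_congr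
      { toFun := fun b => ⟨b.1.1, b.1.2.1, ⟨(congrArg Subtype.val b.2).symm⟩⟩
        invFun := fun Q => ⟨⟨Q.1, Q.2.1, ?_, ?_⟩, ?_⟩
        left_inv := fun b => rfl
        right_inv := fun Q => rfl }
    · have h1 : a.1 = Q.1.under (𝓞 K) := Q.2.2.over
      have h2 := a.2.2.1
      rw [h1, under_def, mem_comap] at h2
      simpa using h2
    · exact (norm_iff K L hodd a.1 Q.1 Q.2).2 a.2.2.2
    · exact Subtype.ext (Q.2.2.over).symm
  rw [e]
  exact (odd_rel K L hodd a.1).1.add_one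

end

end Pool.Agent.E8helper10.PC
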